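import Pool.Agent.PCH.Rot

/-!
# The point on the circle of radius `2/√3` which just unblocks the first index
-/

set_option autoImplicit false

namespace Pool.Agent.PCH

theorem exists_w {a x : ℝ} (ha : 0 ≤ a) (hx : 0 < x) (hX : 4 / 3 ≤ a ^ 2 + x ^ 2)
    (hbl : (2 / Real.sqrt 3 + a) ^ 2 + x ^ 2 < 4) :
    a ≤ 3 / 5 ∧ ∃ Q w : ℝ, 1 ≤ Q ∧ 0 ≤ w ∧ Q ^ 2 + w ^ 2 = 4 / 3 ∧
      (Q + a) ^ 2 + (w + x) ^ 2 = 4 := by
  obtain ⟨s, hs, hs2, hsr⟩ : ∃ s : ℝ, 0 < s ∧ s ^ 2 = 3 ∧ s = Real.sqrt 3 :=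
    ⟨Real.sqrt 3, Real.sqrt_pos.2 (by norm_num), Real.sq_sqrt (by norm_num), rfl⟩
  rw [← hsr] at hbl
  have hρ : 2 / s = 2 * s / 3 := by
    rw [div_eq_div_iff hs.ne' (by norm_num), mul_assoc, ← sq, hs2]
  rw [hρ] at hbl
  have hρ2 : (2 * s / 3) ^ 2 = 4 / 3 := by
    have : (2 * s / 3) ^ 2 = 4 / 9 * s ^ 2 := by ring
    rw [this, hs2]; norm_num
  have hsa : s * a < 1 := by
    have e : (2 * s / 3 + a) ^ 2 = (2 * s / 3) ^ 2 + 4 / 3 * (s * a) + a ^ 2 := by ring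
    rw [e, hρ2] at hbl
    linarith
  have hs17 : 17 / 10 ≤ s := by
    refine le_of_sq_le_sq ?_ hs.le
    rw [hs2]; norm_num
  have ha35 : a ≤ 3 / 5 := by
    by_contra hcon
    push Not at hcon
    have := mul_lt_mul'' (lt_of_le_of_lt (le_refl _) hcon) (lt_of_lt_of_le (by norm_num : (5:ℝ)/3 < 17/10) hs17)
      (by norm_num) (by norm_num)
    have e : a * s = s * a := by ring
    linarith
  have haa : a ^ 2 ≤ 1 / 3 := by
    have h1 := mul_le_mul hsa.le hsa.le (by positivity) (by norm_num)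
    have e : s * a * (s * a) = s ^ 2 * a ^ 2 := by ring
    rw [e, hs2] at h1
    linarith
  obtain ⟨T, hT, hT2⟩ : ∃ T : ℝ, 0 < T ∧ T ^ 2 = 4 / 3 - a ^ 2 :=
    ⟨Real.sqrt (4 / 3 - a ^ 2), Real.sqrt_pos.2 (by linarith), Real.sq_sqrt (by linarith)⟩
  have hTx : T ≤ x := by
    refine le_of_sq_le_sq ?_ hx.le
    rw [hT2]; linarith
  obtain ⟨W, hW⟩ : ∃ W, W = (T - s * a) / 2 := ⟨_, rfl⟩
  obtain ⟨R, hR⟩ : ∃ R, R = (a + s * T) / 2 := ⟨_, rfl⟩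
  have hR0 : 0 ≤ R := by rw [hR]; positivity
  have hRW : R ^ 2 + W ^ 2 = 4 / 3 := by
    have : R ^ 2 + W ^ 2 = (1 + s ^ 2) * (a ^ 2 + T ^ 2) / 4 := by rw [hR, hW]; ring
    rw [this, hs2, hT2]; ring
  have hW0 : 0 ≤ W := by
    have h1 : s * a ≤ T := by
      refine le_of_sq_le_sq ?_ hT.le
      rw [mul_pow, hs2, hT2]
      linarith
    rw [hW]
    linarith
  have hcont : ContinuousOn (fun w : ℝ => (Real.sqrt (4 / 3 - w ^ 2) + a) ^ 2 + (w + x) ^ 2)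
      (Set.Icc 0 W) := by
    apply Continuous.continuousOn
    fun_prop
  have h0 : (fun w : ℝ => (Real.sqrt (4 / 3 - w ^ 2) + a) ^ 2 + (w + x) ^ 2) 0 ≤ 4 := by
    have e : Real.sqrt (4 / 3 - (0 : ℝ) ^ 2) = 2 * s / 3 := by
      rw [← hρ2]
      have e2 : (2 * s / 3) ^ 2 - (0 : ℝ) ^ 2 = (2 * s / 3) ^ 2 := by ring
      rw [e2, Real.sqrt_sq (by positivity)]
    show (Real.sqrt (4 / 3 - (0 : ℝ) ^ 2) + a) ^ 2 + (0 + x) ^ 2 ≤ 4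
    rw [e, zero_add]
    exact hbl.le
  have h1 : 4 ≤ (fun w : ℝ => (Real.sqrt (4 / 3 - w ^ 2) + a) ^ 2 + (w + x) ^ 2) W := by
    have e : Real.sqrt (4 / 3 - W ^ 2) = R := by
      have e2 : 4 / 3 - W ^ 2 = R ^ 2 := by linarith
      rw [e2, Real.sqrt_sq hR0]
    show 4 ≤ (Real.sqrt (4 / 3 - W ^ 2) + a) ^ 2 + (W + x) ^ 2
    rw [e]
    have e3 : (R + a) ^ 2 + (W + T) ^ 2 = (R ^ 2 + W ^ 2) + 2 * (a ^ 2 + T ^ 2) := by
      rw [hR, hW]; ring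
    have e4 : (W + T) ^ 2 ≤ (W + x) ^ 2 := by
      have h2 : 0 ≤ W + T := by linarith
      have h3 : W + T ≤ W + x := by linarith
      have := mul_le_mul h3 h3 h2 (by linarith)
      rw [← sq, ← sq] at this
      exact this
    rw [hRW, hT2] at e3
    linarith
  obtain ⟨w, hw, hfw⟩ := intermediate_value_Icc hW0 hcont ⟨h0, h1⟩
  have hww : w ^ 2 ≤ 4 / 3 := by
    have h2 := mul_le_mul hw.2 hw.2 hw.1 hW0
    rw [← sq, ← sq] at h2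
    have := sq_nonneg R
    linarith
  have hQw : Real.sqrt (4 / 3 - w ^ 2) ^ 2 + w ^ 2 = 4 / 3 := by
    rw [Real.sq_sqrt (by linarith)]; ring
  refine ⟨ha35, Real.sqrt (4 / 3 - w ^ 2), w, ?_, hw.1, hQw, hfw⟩
  exact (sixty_pos ha ha35 hx hX (Real.sqrt_nonneg _) hw.1 hQw hfw hT hT2 hs hs2).2.2

end Pool.Agent.PCH
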