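import Mathlib

/-!
The exceptional inequality of the main lemma: the second target is closer than the
60 degree rotation allows, but its distance to the first one is at most `√3`.
-/

namespace Pool.Agent.PCH

theorem exc_real (a b Q k X Y S2 : ℝ) (ha0 : 0 ≤ a) (ha : a ≤ 1/4) (h1 : 1 ≤ a + b)
    (h2 : a + b ≤ 116/100) (hX : 4/3 < a^2 + X) (hY : 4/3 < b^2 + Y)
    (hS : X + Y - 3 ≤ S2) (hk : 0 ≤ k) (hQ : 0 ≤ Q) (hQk : Q^2 + k^2 * X = 4/3)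
    (h4 : Q^2 + 2*Q*a + a^2 + k^2*X + 2*k*X + X = 4) :
    4 ≤ Q^2 + 2*Q*b + b^2 + Y + k*S2 + k^2*X := by
  have hX0 : 1 < X := by nlinarith
  have h5 : 2*k*X = 8/3 - 2*Q*a - a^2 - X := by linarith
  have hkX : 0 ≤ k*X := by positivity
  have hk2X : 0 ≤ k^2*X := by positivity
  have h6 : k*X ≤ 2/3 - Q*a := by linarith
  have h7 : (k*X)^2 ≤ (2/3 - Q*a)^2 := by
    apply pow_le_pow_left₀ hkX h6
  have h8 : (4/3 - Q^2)*(4/3 - a^2) ≤ (k*X)^2 := by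
    have e : (k*X)^2 = (k^2*X)*X := by ring
    have e2 : k^2*X = 4/3 - Q^2 := by linarith
    rw [e, e2]
    apply mul_le_mul_of_nonneg_left (by linarith)
    linarith
  have h9 : 1 ≤ Q^2 - Q*a + a^2 := by linarith
  have hQ1 : 1 + (2/5)*a ≤ Q := by
    by_contra hc
    push Not at hc
    have h10 : 0 ≤ Q * (1 + (2/5)*a - Q) := mul_nonneg hQ (by linarith)
    rcases eq_or_lt_of_le ha0 with h0 | h0
    · subst h0
      nlinarith
    · -- Q^2 <= Q (1 + 2/5 a), so 1 <= Q (1 - 3/5 a) + a^2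
      have h11 : 1 ≤ Q * (1 - (3/5)*a) + a^2 := by linarith
      have h12 : Q * (1 - (3/5)*a) ≤ (1 + (2/5)*a) * (1 - (3/5)*a) :=
        mul_le_mul_of_nonneg_right hc.le (by linarith)
      nlinarith
  -- the polynomial inequality at X = 4/3 - a^2
  have hb : 3/4 ≤ b := by linarith
  have hfin : (4/3 - 2*Q*a)*(1/3 + a^2 + b^2) ≤ (2*Q*b - 4/3)*(2*(4/3 - a^2)) := by
    have hD : 0 ≤ (8/3)*b - 2*a^2*b + a/3 + a^3 + a*b^2 := by
      have t1 : 0 ≤ b*(8/3 - 2*a^2) := mul_nonneg (by linarith) (by nlinarith)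
      have t2 : 0 ≤ a*(1/3 + a^2 + b^2) := mul_nonneg ha0 (by positivity)
      linarith
    have hN : 2 - (2/3)*a^2 + (2/3)*b^2
        ≤ (1 + (2/5)*a)*((8/3)*b - 2*a^2*b + a/3 + a^3 + a*b^2) := by
      obtain ⟨s, hs⟩ : ∃ s, s = a + b - 1 := ⟨_, rfl⟩
      have hs0 : 0 ≤ s := by linarith
      have hs1 : s ≤ 16/100 := by linarith
      have hbs : b = 1 - a + s := by linarith
      have g : 0 ≤ 16/15 - 68/15*a + 12/5*a^2 := by nlinarith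
      have a3 : 0 ≤ a^3 := by positivity
      have p0 : 0 ≤ a*(16/15 - 68/15*a + 12/5*a^2 + 8/5*a^3) :=
        mul_nonneg ha0 (by linarith)
      have q1 : 5/2 ≤ 8/3 - 2*a^2 + 2*a*(1 - a) := by nlinarith
      have q2 : 0 ≤ (2/5*a)*(8/3 - 2*a^2 + 2*a*(1 - a)) :=
        mul_nonneg (by linarith) (by linarith)
      have q3 : 0 ≤ (1 + 2/5*a)*a*s := by positivity
      have p1 : 0 ≤ s*((1 + 2/5*a)*(8/3 - 2*a^2 + 2*a*(1 - a)) - 4/3*(1 - a)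
          + ((1 + 2/5*a)*a - 2/3)*s) := mul_nonneg hs0 (by linarith)
      rw [hbs]
      linarith
    have := mul_le_mul_of_nonneg_right hQ1 hD
    linarith
  have hkey : k*(5/3 + b^2 - X) ≤ 2*Q*b - 4/3 := by
    have hB' : 0 ≤ 2*Q*b - 4/3 := by nlinarith
    rcases le_or_gt (5/3 + b^2 - X) 0 with hc | hc
    · have : 0 ≤ k*(-(5/3 + b^2 - X)) := mul_nonneg hk (by linarith)
      linarith
    · have m1 : 0 ≤ 2*k*X := by linarith
      have e1 : (2*k*X)*(5/3 + b^2 - X) ≤ (4/3 - 2*Q*a)*(1/3 + a^2 + b^2) :=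
        mul_le_mul (by linarith) (by linarith) hc.le (by linarith)
      have e2 : (2*Q*b - 4/3)*(2*(4/3 - a^2)) ≤ (2*Q*b - 4/3)*(2*X) :=
        mul_le_mul_of_nonneg_left (by linarith) hB'
      have e3 : (2*X)*(k*(5/3 + b^2 - X)) ≤ (2*X)*(2*Q*b - 4/3) := by linarith
      exact le_of_mul_le_mul_left e3 (by linarith)
  have hkS : k*(X + Y - 3) ≤ k*S2 := mul_le_mul_of_nonneg_left hS hk
  have hkY : k*(4/3 - b^2) ≤ k*Y := mul_le_mul_of_nonneg_left (by linarith) hk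
  linarith

theorem exc_fine {H : Type*} [NormedAddCommGroup H] [InnerProductSpace ℝ H] (τ₁ τ₂ : H)
    (a b Q w : ℝ) (ha0 : 0 ≤ a) (ha : a ≤ 1/4) (h1 : 1 ≤ a + b) (h2 : a + b ≤ 116/100)
    (hd : ‖τ₁ - τ₂‖^2 ≤ 3) (hA : 4/3 < a^2 + ‖τ₁‖^2) (hB : 4/3 < b^2 + ‖τ₂‖^2)
    (hQ : 0 ≤ Q) (hw : 0 ≤ w) (hQw : Q^2 + w^2 = 4/3)
    (h4 : (Q + a)^2 + (w + ‖τ₁‖)^2 = 4) :
    4 ≤ (Q + b)^2 + ‖τ₂ + (w / ‖τ₁‖) • τ₁‖^2 := by
  have hT2 : 0 < ‖τ₁‖^2 := by nlinarith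
  have hT : 0 < ‖τ₁‖ := by
    rcases (norm_nonneg τ₁).eq_or_lt with h | h
    · rw [← h] at hT2
      norm_num at hT2
    · exact h
  obtain ⟨k, hk⟩ : ∃ k, k = w / ‖τ₁‖ := ⟨_, rfl⟩
  have hkw : k * ‖τ₁‖ = w := by
    rw [hk]
    field_simp
  have hk0 : 0 ≤ k := by
    rw [hk]
    positivity
  rw [← hk]
  have e1 : ‖τ₂ + k • τ₁‖^2 = ‖τ₂‖^2 + k * (2 * inner ℝ τ₁ τ₂) + k^2 * ‖τ₁‖^2 := by
    rw [norm_add_sq_real, inner_smul_right, norm_smul, Real.norm_eq_abs, abs_of_nonneg hk0,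
      real_inner_comm]
    ring
  have e2 := norm_sub_sq_real τ₁ τ₂
  have e3 : w^2 = k^2 * ‖τ₁‖^2 := by rw [← hkw]; ring
  have e4 : w * ‖τ₁‖ = k * ‖τ₁‖^2 := by rw [← hkw]; ring
  have := exc_real a b Q k (‖τ₁‖^2) (‖τ₂‖^2) (2 * inner ℝ τ₁ τ₂) ha0 ha h1 h2 hA hB
    (by linarith) hk0 hQ (by linarith) (by nlinarith)
  rw [e1]
  linarith

end Pool.Agent.PCH
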