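import Mathlib

/-!
# The exceptional index when `P₁ ≤ 1/4`
-/

set_option autoImplicit false

namespace Pool.Agent.PCH

theorem exc_poly {a b T s : ℝ} (ha : 0 ≤ a) (ha' : a ≤ 1 / 4) (hab : 1 ≤ a + b) (hb : b ≤ 1)
    (hT : 0 < T) (hT2 : T ^ 2 = 4 / 3 - a ^ 2) (hs : 0 < s) (hs2 : s ^ 2 = 3) :
    T * (3 / 2 + (a - b) ^ 2 / 2) ≤
      s * (b * (4 / 3 - a ^ 2) + a * (1 / 3 + a ^ 2 + b ^ 2) / 2) := by
  have hTs : T ≤ 2 * s / 3 := by
    by_contra hcon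
    push Not at hcon
    nlinarith [mul_pos hs hs, sq_nonneg a]
  -- the value at `b₀ = 1 - a`
  have h0 : T * (2 * (1 - a + a ^ 2)) ≤ s * (4 / 3 - 2 / 3 * a - 2 * a ^ 2 + 2 * a ^ 3) := by
    have hL : 0 < 4 / 3 - 2 / 3 * a - 2 * a ^ 2 + 2 * a ^ 3 := by nlinarith [pow_nonneg ha 3]
    have hpos : 0 ≤ s * (4 / 3 - 2 / 3 * a - 2 * a ^ 2 + 2 * a ^ 3) := by positivity
    refine le_of_sq_le_sq ?_ hpos
    rw [mul_pow T, mul_pow s, hT2, hs2]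
    have hq : 0 ≤ 1 - 5 * a + 5 * a ^ 2 + 2 * a ^ 3 - 6 * a ^ 4 + 3 * a ^ 5 := by
      have h3 : 0 ≤ a ^ 3 := pow_nonneg ha 3
      have h5 : 0 ≤ a ^ 5 := pow_nonneg ha 5
      have h4 : a ^ 4 ≤ a ^ 3 * (1 / 4) := by
        have := mul_le_mul_of_nonneg_left ha' h3
        nlinarith
      nlinarith [mul_nonneg (sub_nonneg.2 ha') (sub_nonneg.2 ha')]
    nlinarith [mul_nonneg ha hq]
  have h1 : 0 ≤ b - (1 - a) := by linarith
  have h2 : T * ((b - (1 - a)) * (b + (1 - a) - 2 * a) / 2) ≤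
      s * ((b - (1 - a)) * ((4 / 3 - a ^ 2) + a * (b + (1 - a)) / 2)) := by
    have h3 : 0 ≤ b + (1 - a) - 2 * a := by linarith
    have h4 : (b + (1 - a) - 2 * a) / 3 ≤ (4 / 3 - a ^ 2) + a * (b + (1 - a)) / 2 := by
      nlinarith
    calc T * ((b - (1 - a)) * (b + (1 - a) - 2 * a) / 2)
        ≤ (2 * s / 3) * ((b - (1 - a)) * (b + (1 - a) - 2 * a) / 2) :=
          mul_le_mul_of_nonneg_right hTs (by positivity)
      _ = s * ((b - (1 - a)) * ((b + (1 - a) - 2 * a) / 3)) := by ring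
      _ ≤ _ := mul_le_mul_of_nonneg_left (mul_le_mul_of_nonneg_left h4 h1) hs.le
  have e1 : T * (3 / 2 + (a - b) ^ 2 / 2) = T * (2 * (1 - a + a ^ 2)) +
      T * ((b - (1 - a)) * (b + (1 - a) - 2 * a) / 2) := by ring
  have e2 : s * (b * (4 / 3 - a ^ 2) + a * (1 / 3 + a ^ 2 + b ^ 2) / 2) =
      s * (4 / 3 - 2 / 3 * a - 2 * a ^ 2 + 2 * a ^ 3) +
      s * ((b - (1 - a)) * ((4 / 3 - a ^ 2) + a * (b + (1 - a)) / 2)) := by ring
  rw [e1, e2]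
  exact add_le_add h0 h2

/-- The exceptional index for `P₁ = a ≤ 1/4`: here `x = ‖τ₁‖`, `Y = ‖τ₂‖²`, `c = ⟪τ₁, τ₂⟫`. -/
theorem exc_small {a b x Y c Q w : ℝ} (ha : 0 ≤ a) (ha' : a ≤ 1 / 4) (hab : 1 ≤ a + b)
    (hb : b ≤ 1) (hx : 0 < x) (hX : 4 / 3 ≤ a ^ 2 + x ^ 2) (hY : 4 / 3 ≤ b ^ 2 + Y)
    (hc : x ^ 2 + Y - 3 ≤ 2 * c) (hQ : 0 ≤ Q) (hw : 0 ≤ w) (hQw : Q ^ 2 + w ^ 2 = 4 / 3)
    (h4 : (Q + a) ^ 2 + (w + x) ^ 2 = 4) :
    4 ≤ (Q + b) ^ 2 + (Y + 2 * w * c / x + w ^ 2) := by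
  have haa : a ^ 2 ≤ 1 / 16 := by
    have := mul_le_mul ha' ha' ha (by norm_num : (0:ℝ) ≤ 1 / 4)
    rw [← sq] at this
    linarith
  have haa0 : 0 ≤ a ^ 2 := sq_nonneg a
  obtain ⟨T, hT, hT2⟩ : ∃ T : ℝ, 0 < T ∧ T ^ 2 = 4 / 3 - a ^ 2 :=
    ⟨Real.sqrt (4 / 3 - a ^ 2), Real.sqrt_pos.2 (by linarith), Real.sq_sqrt (by linarith)⟩
  obtain ⟨s, hs, hs2⟩ : ∃ s : ℝ, 0 < s ∧ s ^ 2 = 3 :=
    ⟨Real.sqrt 3, Real.sqrt_pos.2 (by norm_num), Real.sq_sqrt (by norm_num)⟩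
  have hTx : T ≤ x := by
    refine le_of_sq_le_sq ?_ hx.le
    rw [hT2]; linarith
  -- the angle is at least sixty degrees
  have h4' : 2 * (Q * a + w * x) = 8 / 3 - (a ^ 2 + x ^ 2) := by
    have e : (Q + a) ^ 2 + (w + x) ^ 2 = (Q ^ 2 + w ^ 2) + (a ^ 2 + x ^ 2) +
      2 * (Q * a + w * x) := by ring
    rw [e, hQw] at h4
    linarith
  obtain ⟨d, hdd⟩ : ∃ d, d = Q * a + w * T := ⟨_, rfl⟩
  obtain ⟨E, hE⟩ : ∃ E, E = Q * T - w * a := ⟨_, rfl⟩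
  have hd : d ≤ 2 / 3 := by
    have h5 : w * T ≤ w * x := mul_le_mul_of_nonneg_left hTx hw
    rw [hdd]
    linarith
  have hd0 : 0 ≤ d := by rw [hdd]; positivity
  have hde : d ^ 2 + E ^ 2 = 16 / 9 := by
    have : d ^ 2 + E ^ 2 = (Q ^ 2 + w ^ 2) * (a ^ 2 + T ^ 2) := by rw [hdd, hE]; ring
    rw [this, hQw, hT2]; ring
  have hdsq : d ^ 2 ≤ 4 / 9 := by
    have := mul_le_mul hd hd hd0 (by norm_num : (0:ℝ) ≤ 2 / 3)
    rw [← sq] at this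
    linarith
  have hw1 : w ≤ 6 / 5 := by
    refine le_of_sq_le_sq ?_ (by norm_num)
    have := sq_nonneg Q
    norm_num
    linarith
  have he0 : -(3 / 10) ≤ E := by
    have h5 : w * a ≤ 6 / 5 * (1 / 4) := mul_le_mul hw1 ha' ha (by norm_num)
    have h6 : 0 ≤ Q * T := mul_nonneg hQ hT.le
    rw [hE]
    linarith
  have hs1 : s ≤ 2 := by
    refine le_of_sq_le_sq ?_ (by norm_num)
    rw [hs2]; norm_num
  have he : 2 ≤ s * E := by
    by_contra hcon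
    push Not at hcon
    have h6 : -(3 / 5) ≤ s * E := by
      have h7 : s * (E + 3 / 10) ≥ 0 := mul_nonneg hs.le (by linarith)
      have h8 : s * (E + 3 / 10) = s * E + 3 / 10 * s := by ring
      linarith
    have h9 : 0 < (2 - s * E) * (2 + s * E) := mul_pos (by linarith) (by linarith)
    have h10 : (2 - s * E) * (2 + s * E) = 4 - s ^ 2 * E ^ 2 := by ring
    rw [h10, hs2] at h9
    linarith
  obtain ⟨W, hW⟩ : ∃ W, W = (T - s * a) / 2 := ⟨_, rfl⟩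
  obtain ⟨R, hR⟩ : ∃ R, R = (a + s * T) / 2 := ⟨_, rfl⟩
  have hwW : w ≤ W := by
    have e1 : 4 / 3 * w = d * T - E * a := by
      have : d * T - E * a = w * (T ^ 2 + a ^ 2) := by rw [hdd, hE]; ring
      rw [this, hT2]; ring
    have e2 : s * (4 / 3 * w) ≤ s * (4 / 3 * W) := by
      have h5 : s * (4 / 3 * w) = s * T * d - s * E * a := by rw [e1]; ring
      have h6 : s * (4 / 3 * W) = s * T * (2 / 3) - 2 * a := by
        have : s * (4 / 3 * W) = s * T * (2 / 3) - s ^ 2 * a * (2 / 3) := by rw [hW]; ring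
        rw [this, hs2]; ring
      have h7 : s * T * d ≤ s * T * (2 / 3) := mul_le_mul_of_nonneg_left hd (by positivity)
      have h8 : 2 * a ≤ s * E * a := mul_le_mul_of_nonneg_right he ha
      linarith
    have := le_of_mul_le_mul_left e2 hs
    linarith
  have hRW : R ^ 2 + W ^ 2 = 4 / 3 := by
    have : R ^ 2 + W ^ 2 = (1 + s ^ 2) * (a ^ 2 + T ^ 2) / 4 := by rw [hR, hW]; ring
    rw [this, hs2, hT2]; ring
  have hQR : R ≤ Q := by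
    refine le_of_sq_le_sq ?_ hQ
    have := mul_le_mul hwW hwW hw (hw.trans hwW)
    rw [← sq, ← sq] at this
    linarith
  have hpoly := exc_poly ha ha' hab hb hT hT2 hs hs2
  have hb0 : 0 ≤ b := by linarith
  -- the final estimate
  have hκ : 0 ≤ 5 / 3 + b ^ 2 := by positivity
  have f1 : W * (T - (5 / 3 + b ^ 2) / T) ≤ w * (x - (5 / 3 + b ^ 2) / x) := by
    have g1 : T - (5 / 3 + b ^ 2) / T ≤ x - (5 / 3 + b ^ 2) / x :=
      sub_le_sub hTx (div_le_div_of_nonneg_left hκ hT hTx)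
    have g2 : T - (5 / 3 + b ^ 2) / T ≤ 0 := by
      rw [sub_nonpos, le_div_iff₀ hT, ← sq, hT2]
      have := sq_nonneg b
      linarith
    calc W * (T - (5 / 3 + b ^ 2) / T) ≤ w * (T - (5 / 3 + b ^ 2) / T) :=
          mul_le_mul_of_nonpos_right hwW g2
      _ ≤ _ := mul_le_mul_of_nonneg_left g1 hw
  have f2 : 4 / 3 ≤ 2 * R * b + W * (T - (5 / 3 + b ^ 2) / T) := by
    have g3 : T * (4 / 3) ≤ T * (2 * R * b + W * (T - (5 / 3 + b ^ 2) / T)) := by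
      have g4 : T * (2 * R * b + W * (T - (5 / 3 + b ^ 2) / T)) =
          2 * R * b * T + W * (T ^ 2 - (5 / 3 + b ^ 2)) := by
        field_simp
      rw [g4]
      have g5 : 2 * R * b * T + W * (T ^ 2 - (5 / 3 + b ^ 2)) =
          a * b * T + s * b * T ^ 2 - (T - s * a) / 2 * (5 / 3 + b ^ 2 - T ^ 2) := by
        rw [hR, hW]; ring
      rw [g5, hT2]
      have g6 : a * b * T + s * b * (4 / 3 - a ^ 2) -
          (T - s * a) / 2 * (5 / 3 + b ^ 2 - (4 / 3 - a ^ 2)) - T * (4 / 3) =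
          s * (b * (4 / 3 - a ^ 2) + a * (1 / 3 + a ^ 2 + b ^ 2) / 2) -
          T * (3 / 2 + (a - b) ^ 2 / 2) := by ring
      linarith
    exact le_of_mul_le_mul_left g3 hT
  have f3 : 2 * R * b ≤ 2 * Q * b := by
    have := mul_le_mul_of_nonneg_right hQR hb0
    linarith
  have f4 : 4 / 3 + w * (x - (5 / 3 + b ^ 2) / x) ≤ b ^ 2 + Y + 2 * w * c / x := by
    have hwx : 0 ≤ w / x := div_nonneg hw hx.le
    have g7 : 2 * w * c / x = w / x * (2 * c) := by field_simp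
    have g8 : w * (x - (5 / 3 + b ^ 2) / x) = w / x * (x ^ 2 - (5 / 3 + b ^ 2)) := by
      field_simp
    rw [g7, g8]
    have g9 : w / x * (x ^ 2 + Y - 3) ≤ w / x * (2 * c) := mul_le_mul_of_nonneg_left hc hwx
    have g10 : w / x * (x ^ 2 - (5 / 3 + b ^ 2)) ≤ w / x * (x ^ 2 + Y - 3) :=
      mul_le_mul_of_nonneg_left (by linarith) hwx
    linarith
  have f5 : (Q + b) ^ 2 + (Y + 2 * w * c / x + w ^ 2) =
      (Q ^ 2 + w ^ 2) + 2 * Q * b + (b ^ 2 + Y + 2 * w * c / x) := by ring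
  rw [f5, hQw]
  linarith

end Pool.Agent.PCH
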