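import Pool.Agent.PackCover.DenseSeq

/-!
# The group part of the upper bound `γ*(ℓ₁ ⊕₂ H) ≤ 2/√3`
-/

namespace PCH

open PackCover Filter Topology

universe u

variable {H : Type u} [NormedAddCommGroup H]

/-- The selection lemma, as a property of the space `H`. -/
def Selects (H : Type u) [NormedAddCommGroup H] : Prop :=
  ∀ (ι : Type u) (P : ι → ℝ) (τ : ι → H), (∀ i, 0 ≤ P i) →
    (∀ i j, i ≠ j → 1 ≤ P i + P j) →
    (∀ i j, i ≠ j → P i + P j < 2 / √3 → ‖τ i - τ j‖ ^ 2 ≤ 3) →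
    (∀ i j k, i ≠ j → i ≠ k → j ≠ k → 3 ≤ 2 * P i + P j + P k ∨ 3 ≤ P i + 2 * P j + P k ∨
      3 ≤ P i + P j + 2 * P k) →
    (∀ i, 4 / 3 < P i ^ 2 + ‖τ i‖ ^ 2) →
    ∃ (Q : ℝ) (v : H), 1 ≤ Q ∧ Q ^ 2 + ‖v‖ ^ 2 ≤ 4 / 3 ∧
      ∀ i, 4 ≤ (Q + P i) ^ 2 + ‖τ i + v‖ ^ 2 ∧ (Q + P i < 2 / √3 → ‖τ i + v‖ ^ 2 ≤ 3)

/-- admissible subgroups of `ℓ₁ × H` -/
structure Adm (G : AddSubgroup (L1 × H)) : Prop where
  low : ∀ g ∈ G, g ≠ 0 → 1 ≤ ‖g.1‖
  sep : ∀ g ∈ G, g ≠ 0 → 4 ≤ ‖g.1‖ ^ 2 + ‖g.2‖ ^ 2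
  tri : ∀ g ∈ G, ∀ g' ∈ G, g ≠ 0 → g' ≠ 0 → g ≠ g' →
    3 ≤ ‖g.1‖ + ‖g'.1‖ ∨ 3 ≤ ‖g.1‖ + ‖(g - g').1‖ ∨ 3 ≤ ‖g'.1‖ + ‖(g - g').1‖
  tight : ∀ g ∈ G, g ≠ 0 → ‖g.1‖ < 2 / √3 → ‖g.2‖ ^ 2 ≤ 3
  fin : ∃ N, ∀ n, N ≤ n → ∀ g ∈ G, (g.1 : L1) n = 0

theorem two_div_lt : 2 / √3 < 2 := by
  have h : 1 < √3 := by
    rw [Real.lt_sqrt (by norm_num)]
    norm_num
  have h' : 0 < √3 := by linarith
  rw [div_lt_iff₀ h']
  linarith

theorem two_div_sq : (2 / √3) ^ 2 = 4 / 3 := by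
  rw [div_pow, Real.sq_sqrt (by norm_num)]
  norm_num

theorem two_div_pos : 0 < 2 / √3 := by positivity

/-- The choice of the new generator `(y + Q e_N, t + v)`. -/
theorem choose_gen (hH : Selects H) (G : AddSubgroup (L1 × H)) (hG : Adm G) (y : L1) (t : H)
    (hout : ∀ g ∈ G, 4 / 3 < ‖y - g.1‖ ^ 2 + ‖t - g.2‖ ^ 2) :
    ∃ (Q : ℝ) (v : H), 1 ≤ Q ∧ Q ^ 2 + ‖v‖ ^ 2 ≤ 4 / 3 ∧
      ∀ g ∈ G, 4 ≤ (‖y - g.1‖ + Q) ^ 2 + ‖t + v - g.2‖ ^ 2 ∧
        (‖y - g.1‖ + Q < 2 / √3 → ‖t + v - g.2‖ ^ 2 ≤ 3) := by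
  have htr : ∀ g h : L1 × H, ‖(g - h).1‖ ≤ ‖y - g.1‖ + ‖y - h.1‖ := by
    intro g h
    have h4 : (g - h).1 = -(y - g.1) + (y - h.1) := by
      rw [Prod.fst_sub]; abel
    rw [h4]
    refine (norm_add_le _ _).trans ?_
    rw [norm_neg]
  have e1 : ∀ i j : {g : L1 × H // g ∈ G}, i ≠ j → 1 ≤ ‖y - i.1.1‖ + ‖y - j.1.1‖ := by
    intro i j hij
    have h4 : i.1 - j.1 ≠ 0 := sub_ne_zero.2 (fun h => hij (Subtype.ext h))
    exact (hG.low _ (G.sub_mem i.2 j.2) h4).trans (htr _ _)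
  have e2 : ∀ i j : {g : L1 × H // g ∈ G}, i ≠ j → ‖y - i.1.1‖ + ‖y - j.1.1‖ < 2 / √3 →
      ‖(t - i.1.2) - (t - j.1.2)‖ ^ 2 ≤ 3 := by
    intro i j hij hlt
    have h4 : i.1 - j.1 ≠ 0 := sub_ne_zero.2 (fun h => hij (Subtype.ext h))
    have h5 := hG.tight _ (G.sub_mem i.2 j.2) h4 (lt_of_le_of_lt (htr _ _) hlt)
    have h6 : t - i.1.2 - (t - j.1.2) = -((i.1 - j.1).2) := by
      rw [Prod.snd_sub]; abel
    rw [h6, norm_neg]
    exact h5
  have e3 : ∀ i j k : {g : L1 × H // g ∈ G}, i ≠ j → i ≠ k → j ≠ k →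
      3 ≤ 2 * ‖y - i.1.1‖ + ‖y - j.1.1‖ + ‖y - k.1.1‖ ∨
      3 ≤ ‖y - i.1.1‖ + 2 * ‖y - j.1.1‖ + ‖y - k.1.1‖ ∨
      3 ≤ ‖y - i.1.1‖ + ‖y - j.1.1‖ + 2 * ‖y - k.1.1‖ := by
    intro i j k hij hik hjk
    have h4 : j.1 - i.1 ≠ 0 := sub_ne_zero.2 (fun h => hij (Subtype.ext h.symm))
    have h5 : k.1 - i.1 ≠ 0 := sub_ne_zero.2 (fun h => hik (Subtype.ext h.symm))
    have h6 : j.1 - i.1 ≠ k.1 - i.1 := fun h => hjk (Subtype.ext (sub_left_injective h))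
    have h7 := hG.tri _ (G.sub_mem j.2 i.2) _ (G.sub_mem k.2 i.2) h4 h5 h6
    have h8 := htr j.1 i.1
    have h9 := htr k.1 i.1
    have h10 : ‖(j.1 - i.1 - (k.1 - i.1)).1‖ ≤ ‖y - j.1.1‖ + ‖y - k.1.1‖ := by
      have : j.1 - i.1 - (k.1 - i.1) = j.1 - k.1 := by abel
      rw [this]
      exact htr _ _
    rcases h7 with h | h | h
    · left; linarith
    · right; left; linarith
    · right; right; linarith
  obtain ⟨Q, v, h1, h2, h3⟩ := hH {g : L1 × H // g ∈ G} (fun g => ‖y - g.1.1‖)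
    (fun g => t - g.1.2) (fun g => norm_nonneg _) e1 e2 e3 (fun g => hout g.1 g.2)
  refine ⟨Q, v, h1, h2, ?_⟩
  intro g hg
  obtain ⟨h4, h5⟩ := h3 ⟨g, hg⟩
  have h6 : t + v - g.2 = t - g.2 + v := by abel
  rw [h6, add_comm ‖y - g.1‖ Q]
  exact ⟨h4, h5⟩

theorem step (hH : Selects H) (G : AddSubgroup (L1 × H)) (hG : Adm G) (y : L1)
    (hy : ∃ N, ∀ m, N ≤ m → (y : L1) m = 0) (t : H) :
    ∃ G', G ≤ G' ∧ Adm G' ∧ ∃ g ∈ G', ‖y - g.1‖ ^ 2 + ‖t - g.2‖ ^ 2 ≤ 4 / 3 := by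
  by_cases hcov : ∃ g ∈ G, ‖y - g.1‖ ^ 2 + ‖t - g.2‖ ^ 2 ≤ 4 / 3
  · exact ⟨G, le_rfl, hG, hcov⟩
  push Not at hcov
  obtain ⟨a, b, ha1, hab, hsep⟩ := choose_gen hH G hG y t hcov
  obtain ⟨N₁, hN₁⟩ := hG.fin
  obtain ⟨N₂, hN₂⟩ := hy
  set N := max N₁ N₂ with hN
  have hGN : ∀ g ∈ G, (g.1 : L1) N = 0 := hN₁ N (le_max_left _ _)
  have hyN : (y : L1) N = 0 := hN₂ N (le_max_right _ _)
  set z : L1 × H := (y + ev N a, t + b) with hz
  -- norms of the first components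
  have hfst : ∀ g ∈ G, ∀ m : ℤ, ‖(g + m • z).1‖ = ‖g.1 + m • y‖ + |(m : ℝ)| * a := by
    intro g hg m
    have h1 : (g + m • z).1 = (g.1 + m • y) + ev N (m * a) := by
      rw [Prod.fst_add, Prod.smul_fst, hz]
      have h2 : m • (y + ev N a) = m • y + ev N (m * a) := by
        rw [smul_add]
        congr 1
        unfold ev
        have := map_zsmul (lp.singleAddMonoidHom (E := fun _ : ℕ => ℝ) 1 N) m a
        simp only [zsmul_eq_mul] at this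
        exact this.symm
      rw [h2, add_assoc]
    have h2 : (g.1 + m • y : L1) N = 0 := by
      have h3 : (g.1 + m • y : L1) N = (g.1 : L1) N + m • ((y : L1) N) := rfl
      rw [h3, hGN g hg, hyN]
      simp
    rw [h1, norm_add_ev_eq _ _ _ h2, abs_mul, abs_of_nonneg (by linarith : (0 : ℝ) ≤ a)]
  have hsnd : ∀ g : L1 × H, ∀ m : ℤ, (g + m • z).2 = g.2 + m • (t + b) := by
    intro g m
    rw [Prod.snd_add, Prod.smul_snd, hz]
  have habs1 : ∀ m : ℤ, m ≠ 0 → (1 : ℝ) ≤ |(m : ℝ)| := by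
    intro m hm0
    have h6 : 1 ≤ |m| := by
      have : 0 < |m| := abs_pos.2 hm0
      omega
    exact_mod_cast h6
  have hlow1 : ∀ g ∈ G, ∀ m : ℤ, m ≠ 0 → ‖g.1 + m • y‖ + a ≤ ‖(g + m • z).1‖ := by
    intro g hg m hm0
    rw [hfst g hg m]
    have h6 : a ≤ |(m : ℝ)| * a := by nlinarith [habs1 m hm0]
    linarith
  have hlow2 : ∀ g ∈ G, ∀ m : ℤ, 2 ≤ |m| → 2 * a ≤ ‖(g + m • z).1‖ := by
    intro g hg m hm
    have h5 : (2 : ℝ) ≤ |(m : ℝ)| := by exact_mod_cast hm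
    rw [hfst g hg m]
    nlinarith [norm_nonneg (g.1 + m • y)]
  have hlow : ∀ g ∈ G, ∀ m : ℤ, m ≠ 0 → a ≤ ‖(g + m • z).1‖ := by
    intro g hg m hm0
    linarith [hlow1 g hg m hm0, norm_nonneg (g.1 + m • y)]
  -- `m = ± 1`
  have hone : ∀ g ∈ G, ∀ m : ℤ, |m| = 1 →
      4 ≤ ‖(g + m • z).1‖ ^ 2 + ‖(g + m • z).2‖ ^ 2 ∧
      (‖(g + m • z).1‖ < 2 / √3 → ‖(g + m • z).2‖ ^ 2 ≤ 3) := by
    intro g hg m hm1
    rcases (abs_eq (by norm_num : (0 : ℤ) ≤ 1)).1 hm1 with hm | hm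
    · subst hm
      have h5 := hsep (-g) (G.neg_mem hg)
      have h6 : y - (-g).1 = g.1 + (1 : ℤ) • y := by
        rw [Prod.fst_neg, one_smul]; abel
      have h7 : t + b - (-g).2 = g.2 + (1 : ℤ) • (t + b) := by
        rw [Prod.snd_neg, one_smul]; abel
      rw [h6, h7] at h5
      rw [hfst g hg, hsnd]
      simpa using h5
    · subst hm
      have h5 := hsep g hg
      have h6 : g.1 + (-1 : ℤ) • y = -(y - g.1) := by
        rw [neg_smul, one_smul]; abel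
      have h7 : g.2 + (-1 : ℤ) • (t + b) = -(t + b - g.2) := by
        rw [neg_smul, one_smul]; abel
      rw [hfst g hg, hsnd, h6, h7, norm_neg, norm_neg]
      simpa using h5
  have hmem0 : ∀ g : L1 × H, g + (0 : ℤ) • z = g := by
    intro g
    simp
  refine ⟨G ⊔ AddSubgroup.zmultiples z, le_sup_left, ⟨?_, ?_, ?_, ?_, ?_⟩, z, ?_, ?_⟩
  · -- low
    intro w hw hw0
    obtain ⟨g, hg, u, hu, rfl⟩ := AddSubgroup.mem_sup.1 hw
    obtain ⟨m, rfl⟩ := AddSubgroup.mem_zmultiples_iff.1 hu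
    by_cases hm0 : m = 0
    · subst hm0
      rw [hmem0] at hw0 ⊢
      exact hG.low g hg hw0
    · exact ha1.trans (hlow g hg m hm0)
  · -- sep
    intro w hw hw0
    obtain ⟨g, hg, u, hu, rfl⟩ := AddSubgroup.mem_sup.1 hw
    obtain ⟨m, rfl⟩ := AddSubgroup.mem_zmultiples_iff.1 hu
    by_cases hm0 : m = 0
    · subst hm0
      rw [hmem0] at hw0 ⊢
      exact hG.sep g hg hw0
    by_cases hm1 : |m| = 1
    · exact (hone g hg m hm1).1
    · have h6 : 2 ≤ |m| := by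
        have : 0 < |m| := abs_pos.2 hm0
        omega
      have h7 := hlow2 g hg m h6
      nlinarith [sq_nonneg ‖(g + m • z).2‖]
  · -- tri
    intro w hw w' hw' hw0 hw0' hne
    obtain ⟨g, hg, u, hu, rfl⟩ := AddSubgroup.mem_sup.1 hw
    obtain ⟨m, rfl⟩ := AddSubgroup.mem_zmultiples_iff.1 hu
    obtain ⟨g', hg', u', hu', rfl⟩ := AddSubgroup.mem_sup.1 hw'
    obtain ⟨m', rfl⟩ := AddSubgroup.mem_zmultiples_iff.1 hu'
    have hsub : g + m • z - (g' + m' • z) = (g - g') + (m - m') • z := by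
      rw [sub_smul]; abel
    have hgg : g - g' ∈ G := G.sub_mem hg hg'
    by_cases hm0 : m = 0
    · subst hm0
      rw [hmem0] at hw0 hne hsub ⊢
      by_cases hm0' : m' = 0
      · subst hm0'
        rw [hmem0] at hw0' hne ⊢
        exact hG.tri g hg g' hg' hw0 hw0' hne
      · right; right
        rw [hsub]
        have h1 := hlow1 g' hg' m' hm0'
        have h2 := hlow1 (g - g') hgg (0 - m') (by omega)
        have h3 := hG.low g hg hw0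
        have h4 : g.1 = (g'.1 + m' • y) + ((g - g').1 + (0 - m') • y) := by
          rw [Prod.fst_sub, zero_sub, neg_smul]; abel
        have h5 : ‖g.1‖ ≤ ‖g'.1 + m' • y‖ + ‖(g - g').1 + (0 - m') • y‖ := by
          calc ‖g.1‖ = ‖(g'.1 + m' • y) + ((g - g').1 + (0 - m') • y)‖ := by rw [← h4]
            _ ≤ _ := norm_add_le _ _
        linarith
    by_cases hm0' : m' = 0
    · subst hm0'
      rw [hmem0] at hw0' hne hsub ⊢
      right; left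
      rw [hsub]
      have h1 := hlow1 g hg m hm0
      have h2 := hlow1 (g - g') hgg (m - 0) (by omega)
      have h3 := hG.low g' hg' hw0'
      have h4 : g'.1 = (g.1 + m • y) - ((g - g').1 + (m - 0) • y) := by
        rw [Prod.fst_sub, sub_zero]; abel
      have h5 : ‖g'.1‖ ≤ ‖g.1 + m • y‖ + ‖(g - g').1 + (m - 0) • y‖ := by
        calc ‖g'.1‖ = ‖(g.1 + m • y) - ((g - g').1 + (m - 0) • y)‖ := by rw [← h4]
          _ ≤ _ := norm_sub_le _ _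
      linarith
    by_cases hmm : m = m'
    · subst hmm
      left
      have h0 : g - g' ≠ 0 := by
        intro h
        exact hne (by rw [sub_eq_zero.1 h])
      have h1 := hlow1 g hg m hm0
      have h2 := hlow1 g' hg' m hm0
      have h3 := hG.low (g - g') hgg h0
      have h4 : (g - g').1 = (g.1 + m • y) - (g'.1 + m • y) := by
        rw [Prod.fst_sub]; abel
      have h5 : ‖(g - g').1‖ ≤ ‖g.1 + m • y‖ + ‖g'.1 + m • y‖ := by
        rw [h4]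
        exact norm_sub_le _ _
      linarith
    · have h0 : m - m' ≠ 0 := sub_ne_zero.2 hmm
      have h1 := hlow g hg m hm0
      have h2 := hlow g' hg' m' hm0'
      have h3 := hlow (g - g') hgg (m - m') h0
      rw [hsub]
      by_cases c1 : 2 ≤ |m|
      · left
        have h4 := hlow2 g hg m c1
        linarith
      by_cases c2 : 2 ≤ |m'|
      · left
        have h4 := hlow2 g' hg' m' c2
        linarith
      · right; left
        have c3 : 2 ≤ |m - m'| := by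
          have e1 : 0 < |m| := abs_pos.2 hm0
          have e2 : 0 < |m'| := abs_pos.2 hm0'
          have e3 : |m| = 1 := by omega
          have e4 : |m'| = 1 := by omega
          rcases (abs_eq (by norm_num : (0 : ℤ) ≤ 1)).1 e3 with e5 | e5 <;>
            rcases (abs_eq (by norm_num : (0 : ℤ) ≤ 1)).1 e4 with e6 | e6 <;>
            subst e5 <;> subst e6 <;> first | exact absurd rfl hmm | norm_num
        have h4 := hlow2 (g - g') hgg (m - m') c3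
        linarith
  · -- tight
    intro w hw hw0 hlt
    obtain ⟨g, hg, u, hu, rfl⟩ := AddSubgroup.mem_sup.1 hw
    obtain ⟨m, rfl⟩ := AddSubgroup.mem_zmultiples_iff.1 hu
    by_cases hm0 : m = 0
    · subst hm0
      rw [hmem0] at hw0 hlt ⊢
      exact hG.tight g hg hw0 hlt
    by_cases hm1 : |m| = 1
    · exact (hone g hg m hm1).2 hlt
    · exfalso
      have h6 : 2 ≤ |m| := by
        have : 0 < |m| := abs_pos.2 hm0
        omega
      have h7 := hlow2 g hg m h6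
      linarith [two_div_lt]
  · refine ⟨N + 1, ?_⟩
    intro n hn w hw
    obtain ⟨g, hg, u, hu, rfl⟩ := AddSubgroup.mem_sup.1 hw
    obtain ⟨m, rfl⟩ := AddSubgroup.mem_zmultiples_iff.1 hu
    have h1 : ((g + m • z).1 : L1) n = (g.1 : L1) n + m • ((y : L1) n + (ev N a : L1) n) := rfl
    rw [h1, hN₁ n (by omega) g hg, hN₂ n (by omega), ev_ne _ _ _ (by omega)]
    simp
  · exact (le_sup_right : AddSubgroup.zmultiples z ≤ _) (AddSubgroup.mem_zmultiples z)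
  · have h1 : ‖y - z.1‖ = a := by
      have : y - z.1 = -(ev N a) := by rw [hz]; simp only; abel
      rw [this, norm_neg, norm_ev, abs_of_nonneg (by linarith)]
    have h2 : ‖t - z.2‖ = ‖b‖ := by
      have : t - z.2 = -b := by rw [hz]; simp only; abel
      rw [this, norm_neg]
    rw [h1, h2]
    exact hab

theorem adm_start : Adm (⊥ : AddSubgroup (L1 × H)) := by
  refine ⟨?_, ?_, ?_, ?_, ⟨0, ?_⟩⟩
  · intro g hg hg0
    exact absurd (AddSubgroup.mem_bot.1 hg) hg0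
  · intro g hg hg0
    exact absurd (AddSubgroup.mem_bot.1 hg) hg0
  · intro g hg g' _ hg0
    exact absurd (AddSubgroup.mem_bot.1 hg) hg0
  · intro g hg hg0
    exact absurd (AddSubgroup.mem_bot.1 hg) hg0
  · intro n _ g hg
    rw [AddSubgroup.mem_bot.1 hg]
    rfl

/-- the union of a chain of admissible subgroups -/
theorem exists_limit (hH : Selects H)
    (hY : ∃ t : ℕ → H, ∀ v : H, ∀ ε : ℝ, 0 < ε → ∃ n, ‖v - t n‖ ≤ ε) :
    ∃ D : AddSubgroup (L1 × H),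
    (∀ g ∈ D, g ≠ 0 → 4 ≤ ‖g.1‖ ^ 2 + ‖g.2‖ ^ 2) ∧
    ∀ (x : L1) (v : H) (ε : ℝ), 0 < ε → ∃ (y : L1) (t : H), ‖x - y‖ ≤ ε ∧ ‖v - t‖ ≤ ε ∧
      ∃ g ∈ D, ‖y - g.1‖ ^ 2 + ‖t - g.2‖ ^ 2 ≤ 4 / 3 := by
  obtain ⟨y, hy1, hy2⟩ := exists_dense_seq
  obtain ⟨t, ht⟩ := hY
  have hstep : ∀ (n : ℕ) (G : {G : AddSubgroup (L1 × H) // Adm G}),
      ∃ G' : {G : AddSubgroup (L1 × H) // Adm G}, G.1 ≤ G'.1 ∧
        ∃ g ∈ G'.1, ‖y n.unpair.1 - g.1‖ ^ 2 + ‖t n.unpair.2 - g.2‖ ^ 2 ≤ 4 / 3 := by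
    intro n G
    obtain ⟨G', h1, h2, h3⟩ := step hH G.1 G.2 (y n.unpair.1) (hy1 _) (t n.unpair.2)
    exact ⟨⟨G', h2⟩, h1, h3⟩
  choose f hf using hstep
  set s : ℕ → {G : AddSubgroup (L1 × H) // Adm G} := fun n =>
    Nat.rec ⟨_, adm_start⟩ (fun n G => f n G) n with hs
  have hs1 : ∀ n, s (n + 1) = f n (s n) := fun n => rfl
  have hmono : Monotone (fun n => (s n).1) := by
    refine monotone_nat_of_le_succ ?_
    intro n
    show (s n).1 ≤ (s (n + 1)).1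
    rw [hs1]
    exact (hf n (s n)).1
  have hmem : ∀ g, g ∈ (⨆ n, (s n).1) ↔ ∃ n, g ∈ (s n).1 := by
    intro g
    exact AddSubgroup.mem_iSup_of_directed hmono.directed_le
  refine ⟨⨆ n, (s n).1, ?_, ?_⟩
  · intro g hg hg0
    obtain ⟨n, hn⟩ := (hmem g).1 hg
    exact (s n).2.sep g hn hg0
  · intro x v ε hε
    obtain ⟨i, hi⟩ := hy2 x ε hε
    obtain ⟨j, hj⟩ := ht v ε hε
    have hle : (s (Nat.pair i j + 1)).1 ≤ ⨆ n, (s n).1 :=
      le_iSup (fun n => (s n).1) (Nat.pair i j + 1)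
    rw [hs1] at hle
    obtain ⟨g, hg, hg'⟩ := (hf (Nat.pair i j) (s (Nat.pair i j))).2
    rw [Nat.unpair_pair] at hg'
    exact ⟨y i, t j, hi, hj, g, hle hg, hg'⟩

/-- the map `ℓ₁ × H → ℓ₁ ⊕₂ H` -/
noncomputable def emb : L1 × H →+ WithLp 2 (L1 × H) where
  toFun g := WithLp.toLp 2 g
  map_zero' := rfl
  map_add' _ _ := rfl

theorem norm_emb_sq (g : L1 × H) : ‖emb g‖ ^ 2 = ‖g.1‖ ^ 2 + ‖g.2‖ ^ 2 :=
  WithLp.prod_norm_sq_eq_of_L2 (emb g)

theorem norm_emb_le (g : L1 × H) : ‖emb g‖ ≤ ‖g.1‖ + ‖g.2‖ := by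
  have h := norm_emb_sq g
  refine abs_le_of_sq_le_sq' ?_ (by positivity) |>.2
  nlinarith [norm_nonneg g.1, norm_nonneg g.2]

/-- One subgroup that is `(2/√3 + ε)`-dense for every `ε > 0`. -/
theorem upper_bound_all (hH : Selects H)
    (hY : ∃ t : ℕ → H, ∀ v : H, ∀ ε : ℝ, 0 < ε → ∃ n, ‖v - t n‖ ≤ ε) :
    ∃ D : AddSubgroup (WithLp 2 (L1 × H)), TwoSep (D : Set (WithLp 2 (L1 × H))) ∧
      ∀ ε : ℝ, 0 < ε → RhoDense (D : Set (WithLp 2 (L1 × H))) (2 / √3 + ε) := by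
  obtain ⟨D, hsep, hnear⟩ := exists_limit hH hY
  refine ⟨D.map emb, ?_, ?_⟩
  · intro d hd d' hd' hne
    obtain ⟨g, hg, rfl⟩ := AddSubgroup.mem_map.1 hd
    obtain ⟨g', hg', rfl⟩ := AddSubgroup.mem_map.1 hd'
    have h3 : g - g' ≠ 0 := by
      intro h
      exact hne (by rw [sub_eq_zero.1 h])
    have h4 := hsep (g - g') (D.sub_mem hg hg') h3
    rw [← norm_emb_sq, map_sub] at h4
    nlinarith [norm_nonneg (emb g - emb g')]
  · intro ε hε p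
    obtain ⟨y, t, hy, ht, g, hg, hg'⟩ := hnear p.fst p.snd (ε / 2) (by positivity)
    refine ⟨emb g, AddSubgroup.mem_map_of_mem _ hg, ?_⟩
    have h3 : p - emb g = emb (p.fst - y, p.snd - t) + emb (y - g.1, t - g.2) := by
      have h4 : emb (p.fst - y, p.snd - t) + emb (y - g.1, t - g.2)
        = WithLp.toLp 2 ((p.fst - y) + (y - g.1), (p.snd - t) + (t - g.2)) := rfl
      rw [h4, sub_add_sub_cancel, sub_add_sub_cancel]
      rfl
    rw [h3]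
    refine (norm_add_le _ _).trans ?_
    have h5 : ‖emb (p.fst - y, p.snd - t)‖ ≤ ε := by
      refine (norm_emb_le _).trans ?_
      show ‖p.fst - y‖ + ‖p.snd - t‖ ≤ ε
      linarith
    have h6 : ‖emb (y - g.1, t - g.2)‖ ≤ 2 / √3 := by
      refine abs_le_of_sq_le_sq' ?_ two_div_pos.le |>.2
      rw [norm_emb_sq, two_div_sq]
      exact hg'
    linarith

end PCH
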