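import Mathlib

/-!
A pair lemma: two vectors which are nearly blocking can be avoided by one short vector.
-/

set_option autoImplicit false

namespace Pool.Agent.PCH

/-- positivity of the squared norm of the convex combinations -/
lemma pair_pos (a b l : ℝ) (ha : 1/4 ≤ a) (hb : 1/4 ≤ b) (h2 : a + b ≤ 116/100) :
    ((1 - l) * a + l * b) ^ 2 + l * (1 - l) * (3 + (a - b) ^ 2) < 4 / 3 := by
  obtain ⟨c, hc⟩ : ∃ c, c = a + b := ⟨_, rfl⟩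
  obtain ⟨d, hd⟩ : ∃ d, d = b - a := ⟨_, rfl⟩
  obtain ⟨s, hs⟩ : ∃ s, s = 2 * l - 1 := ⟨_, rfl⟩
  have e : ((1 - l) * a + l * b) ^ 2 + l * (1 - l) * (3 + (a - b) ^ 2) =
      (c ^ 2 + 2 * c * d * s + d ^ 2 + 3 - 3 * s ^ 2) / 4 := by
    rw [hc, hd, hs]; ring
  rw [e]
  have hc1 : c ≤ 116 / 100 := by rw [hc]; exact h2
  have hc0 : 1 / 2 ≤ c := by rw [hc]; linarith
  have hd1 : d ≤ c - 1 / 2 := by rw [hc, hd]; linarith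
  have hd2 : -(c - 1 / 2) ≤ d := by rw [hc, hd]; linarith
  have hcc : c ^ 2 ≤ (116 / 100) ^ 2 := by gcongr
  have hdd : d ^ 2 ≤ (66 / 100) ^ 2 := by
    apply sq_le_sq'
    · linarith
    · linarith
  have hcd : c ^ 2 * d ^ 2 ≤ (116 / 100) ^ 2 * (66 / 100) ^ 2 := by gcongr
  nlinarith [sq_nonneg (3 * s - c * d)]

/-- the polynomial inequality -/
lemma pair_poly (a b l : ℝ) (ha : 1/4 ≤ a) (hb : 1/4 ≤ b) (h1 : 1 ≤ a + b)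
    (h2 : a + b ≤ 116/100) (hl0 : 0 ≤ l) (hl1 : l ≤ 1)
    (hx : 0 ≤ 2513 / 1875 - 54 / 25 * ((1 - l) * a + l * b)) :
    (2513 / 1875 - 54 / 25 * ((1 - l) * a + l * b)) ^ 2 <
      16 / 25 * (4 / 3 - ((1 - l) * a + l * b) ^ 2 - l * (1 - l) * (3 + (a - b) ^ 2)) := by
  obtain ⟨c, hc⟩ : ∃ c, c = a + b := ⟨_, rfl⟩
  obtain ⟨d, hd⟩ : ∃ d, d = b - a := ⟨_, rfl⟩
  obtain ⟨s, hs⟩ : ∃ s, s = 2 * l - 1 := ⟨_, rfl⟩
  obtain ⟨z, hz⟩ : ∃ z, z = d * s := ⟨_, rfl⟩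
  have ex : (1 - l) * a + l * b = (c + z) / 2 := by
    rw [hz, hc, hd, hs]; ring
  have el : l * (1 - l) * (3 + (a - b) ^ 2) = (3 + d ^ 2 - 3 * s ^ 2 - z ^ 2) / 4 := by
    rw [hz, hd, hs]; ring
  rw [ex] at hx
  rw [ex, el]
  have hc0 : 1 ≤ c := by rw [hc]; exact h1
  have hc1 : c ≤ 116 / 100 := by rw [hc]; exact h2
  have hd1 : d ≤ c - 1 / 2 := by rw [hc, hd]; linarith
  have hd2 : -(c - 1 / 2) ≤ d := by rw [hc, hd]; linarith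
  have hdd : d ^ 2 ≤ (c - 1 / 2) ^ 2 := sq_le_sq' hd2 hd1
  have hs2 : s ^ 2 ≤ 1 := by
    have h3 : s ^ 2 ≤ 1 ^ 2 := sq_le_sq' (by rw [hs]; linarith) (by rw [hs]; linarith)
    linarith
  have hz2 : z ^ 2 ≤ (66 / 100) ^ 2 := by
    rw [hz, mul_pow]
    have h3 : d ^ 2 ≤ (66 / 100) ^ 2 := sq_le_sq' (by linarith) (by linarith)
    nlinarith [sq_nonneg d, sq_nonneg s]
  have hzl : -(66 / 100) ≤ z := by
    exact (abs_le.1 (abs_le_of_sq_le_sq hz2 (by norm_num))).1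
  have hzu : z ≤ 241 / 1000 := by linarith
  -- the bound for `s ^ 2`
  obtain ⟨u, hu⟩ : ∃ u : ℝ, u = (c - 1 / 2) * (50 / 29) := ⟨_, rfl⟩
  have hu0 : 0 ≤ u := by rw [hu]; linarith
  have hu1 : u ≤ 12 / 10 := by rw [hu]; linarith
  have hcu : (3 - 2 * u) * (50 / 29) ^ 2 * (c - 1 / 2) ^ 2 ≤ 1 := by
    have e : (3 - 2 * u) * (50 / 29) ^ 2 * (c - 1 / 2) ^ 2 = (3 - 2 * u) * u ^ 2 := by
      rw [hu]; ring
    rw [e]
    nlinarith [mul_nonneg (sq_nonneg (1 - u)) (by linarith : (0:ℝ) ≤ 1 + 2 * u)]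
  have hst : (3 - 2 * u) * (50 / 29) ^ 2 * z ^ 2 ≤ s ^ 2 := by
    rw [hz, mul_pow]
    have h3 : (3 - 2 * u) * (50 / 29) ^ 2 * d ^ 2 ≤ 1 := by
      refine le_trans ?_ hcu
      have : 0 ≤ (3 - 2 * u) * (50 / 29) ^ 2 := by
        have : 0 ≤ 3 - 2 * u := by linarith
        positivity
      gcongr
    nlinarith [sq_nonneg s]
  -- the values at the two ends
  have hH1 : 1 / 50 ≤ 16 / 25 * (4 / 3 - ((1 + z) ^ 2 + 3 + (1 - 1 / 2) ^ 2 -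
      3 * ((3 - 2 * ((1 - 1 / 2) * (50 / 29))) * (50 / 29) ^ 2 * z ^ 2) - z ^ 2) / 4) -
      (2513 / 1875 - 54 / 25 * ((1 + z) / 2)) ^ 2 := by
    nlinarith [sq_nonneg (z + 185 / 1000)]
  have hH2 : 1 / 50 ≤ 16 / 25 * (4 / 3 - ((116 / 100 + z) ^ 2 + 3 + (116 / 100 - 1 / 2) ^ 2 -
      3 * ((3 - 2 * ((116 / 100 - 1 / 2) * (50 / 29))) * (50 / 29) ^ 2 * z ^ 2) - z ^ 2) / 4) -
      (2513 / 1875 - 54 / 25 * ((116 / 100 + z) / 2)) ^ 2 := by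
    nlinarith [mul_nonneg (by linarith : (0:ℝ) ≤ z + 66 / 100)
      (by linarith : (0:ℝ) ≤ 241 / 1000 - z)]
  have hH : 0 < 16 / 25 * (4 / 3 - ((c + z) ^ 2 + 3 + (c - 1 / 2) ^ 2 -
      3 * ((3 - 2 * u) * (50 / 29) ^ 2 * z ^ 2) - z ^ 2) / 4) -
      (2513 / 1875 - 54 / 25 * ((c + z) / 2)) ^ 2 := by
    have h3 := mul_nonneg (sub_nonneg.2 hc0) (sub_nonneg.2 hH2)
    have h4 := mul_nonneg (sub_nonneg.2 hc1) (sub_nonneg.2 hH1)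
    have h5 := mul_nonneg (sub_nonneg.2 hc0) (sub_nonneg.2 hc1)
    have e : 16 / 25 * (4 / 3 - ((c + z) ^ 2 + 3 + (c - 1 / 2) ^ 2 -
        3 * ((3 - 2 * u) * (50 / 29) ^ 2 * z ^ 2) - z ^ 2) / 4) -
        (2513 / 1875 - 54 / 25 * ((c + z) / 2)) ^ 2 =
        25 / 4 * ((116 / 100 - c) * (16 / 25 * (4 / 3 - ((1 + z) ^ 2 + 3 + (1 - 1 / 2) ^ 2 -
          3 * ((3 - 2 * ((1 - 1 / 2) * (50 / 29))) * (50 / 29) ^ 2 * z ^ 2) - z ^ 2) / 4) -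
          (2513 / 1875 - 54 / 25 * ((1 + z) / 2)) ^ 2 - 1 / 50)) +
        25 / 4 * ((c - 1) * (16 / 25 * (4 / 3 - ((116 / 100 + z) ^ 2 + 3 +
          (116 / 100 - 1 / 2) ^ 2 -
          3 * ((3 - 2 * ((116 / 100 - 1 / 2) * (50 / 29))) * (50 / 29) ^ 2 * z ^ 2) - z ^ 2) / 4) -
          (2513 / 1875 - 54 / 25 * ((116 / 100 + z) / 2)) ^ 2 - 1 / 50)) +
        929 / 625 * ((c - 1) * (116 / 100 - c)) + 1 / 50 := by
      rw [hu]; ring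
    rw [e]
    linarith
  have hfin : 16 / 25 * (4 / 3 - ((c + z) ^ 2 + 3 + (c - 1 / 2) ^ 2 -
      3 * ((3 - 2 * u) * (50 / 29) ^ 2 * z ^ 2) - z ^ 2) / 4) ≤
      16 / 25 * (4 / 3 - ((c + z) / 2) ^ 2 - (3 + d ^ 2 - 3 * s ^ 2 - z ^ 2) / 4) := by
    linarith
  linarith

/-- the weighted inequality -/
lemma pair_num (a b l X₁ X₂ D N : ℝ) (ha : 1/4 ≤ a) (hb : 1/4 ≤ b) (h1 : 1 ≤ a + b)
    (h2 : a + b ≤ 116/100) (hl0 : 0 ≤ l) (hl1 : l ≤ 1) (hD : D ≤ 3)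
    (hA : 4/3 < a^2 + X₁) (hB : 4/3 < b^2 + X₂) (hN : 0 ≤ N)
    (hN2 : N ^ 2 = (1 - l) * X₁ + l * X₂ - l * (1 - l) * D) :
    4 < (1 - l) * ((27/25 + a) ^ 2 + X₁ + 4 / 25) + l * ((27/25 + b) ^ 2 + X₂ + 4 / 25) +
      4 / 5 * N := by
  by_contra hcon
  push Not at hcon
  have hp : 0 ≤ l * (1 - l) := mul_nonneg hl0 (by linarith)
  have hE : 4 / 3 ≤ (1 - l) * (a ^ 2 + X₁) + l * (b ^ 2 + X₂) := by
    nlinarith [mul_nonneg hl0 (sub_nonneg.2 hB.le), mul_nonneg (sub_nonneg.2 hl1)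
      (sub_nonneg.2 hA.le)]
  have hNle : 4 / 5 * N ≤ 2513 / 1875 - 54 / 25 * ((1 - l) * a + l * b) := by
    have e : (1 - l) * ((27/25 + a) ^ 2 + X₁ + 4 / 25) + l * ((27/25 + b) ^ 2 + X₂ + 4 / 25) =
        829 / 625 + 54 / 25 * ((1 - l) * a + l * b) +
          ((1 - l) * (a ^ 2 + X₁) + l * (b ^ 2 + X₂)) := by ring
    rw [e] at hcon
    linarith
  have h0 : 0 ≤ 2513 / 1875 - 54 / 25 * ((1 - l) * a + l * b) :=
    le_trans (by positivity) hNle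
  have hsq : (4 / 5 * N) ^ 2 ≤ (2513 / 1875 - 54 / 25 * ((1 - l) * a + l * b)) ^ 2 :=
    pow_le_pow_left₀ (by positivity) hNle 2
  have hlow : 4 / 3 - ((1 - l) * a + l * b) ^ 2 - l * (1 - l) * (3 + (a - b) ^ 2) ≤ N ^ 2 := by
    rw [hN2]
    have e : (1 - l) * X₁ + l * X₂ = ((1 - l) * (a ^ 2 + X₁) + l * (b ^ 2 + X₂)) -
        ((1 - l) * a + l * b) ^ 2 - l * (1 - l) * (a - b) ^ 2 := by ring
    rw [e]
    nlinarith [mul_le_mul_of_nonneg_left hD hp]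
  have := pair_poly a b l ha hb h1 h2 hl0 hl1 h0
  nlinarith

section
variable {H : Type*} [NormedAddCommGroup H] [InnerProductSpace ℝ H]

lemma norm_comb (τ₁ τ₂ : H) (l : ℝ) :
    ‖(1 - l) • τ₁ + l • τ₂‖ ^ 2 =
      (1 - l) * ‖τ₁‖ ^ 2 + l * ‖τ₂‖ ^ 2 - l * (1 - l) * ‖τ₁ - τ₂‖ ^ 2 := by
  rw [norm_add_sq_real, norm_sub_sq_real, norm_smul, norm_smul, inner_smul_left,
    inner_smul_right, mul_pow, mul_pow, Real.norm_eq_abs, Real.norm_eq_abs, sq_abs, sq_abs]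
  simp only [conj_trivial]
  ring

theorem pair_v (τ₁ τ₂ : H) (a b : ℝ) (ha : 1/4 ≤ a) (hb : 1/4 ≤ b) (h1 : 1 ≤ a + b)
    (h2 : a + b ≤ 116/100) (hd : ‖τ₁ - τ₂‖^2 ≤ 3) (hA : 4/3 < a^2 + ‖τ₁‖^2)
    (hB : 4/3 < b^2 + ‖τ₂‖^2) :
    ∃ v : H, ‖v‖ ≤ 2/5 ∧ 4 ≤ (27/25 + a)^2 + ‖τ₁ + v‖^2 ∧ 4 ≤ (27/25 + b)^2 + ‖τ₂ + v‖^2 := by
  obtain ⟨T, hT⟩ : ∃ T : ℝ → H, T = fun l => (1 - l) • τ₁ + l • τ₂ := ⟨_, rfl⟩
  have hTc : Continuous T := by rw [hT]; fun_prop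
  have hTn : ∀ l, ‖T l‖ ^ 2 =
      (1 - l) * ‖τ₁‖ ^ 2 + l * ‖τ₂‖ ^ 2 - l * (1 - l) * ‖τ₁ - τ₂‖ ^ 2 := fun l => by
    rw [hT]; exact norm_comb τ₁ τ₂ l
  have hTpos : ∀ l ∈ Set.Icc (0:ℝ) 1, 0 < ‖T l‖ := by
    rintro l ⟨hl0, hl1⟩
    have h3 : 0 < ‖T l‖ ^ 2 := by
      rw [hTn]
      have h4 := pair_pos a b l ha hb h2
      have hp : 0 ≤ l * (1 - l) := mul_nonneg hl0 (by linarith)
      nlinarith [mul_le_mul_of_nonneg_left hd hp, mul_nonneg hl0 (sub_nonneg.2 hB.le),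
        mul_nonneg (sub_nonneg.2 hl1) (sub_nonneg.2 hA.le)]
    by_contra hcon
    have h5 : ‖T l‖ = 0 := le_antisymm (not_lt.1 hcon) (norm_nonneg _)
    rw [h5] at h3
    norm_num at h3
  obtain ⟨v, hv⟩ : ∃ v : ℝ → H, v = fun l => (2 / 5 * ‖T l‖⁻¹) • T l := ⟨_, rfl⟩
  have hvn : ∀ l ∈ Set.Icc (0:ℝ) 1, ‖v l‖ = 2 / 5 := by
    intro l hl
    have h3 := hTpos l hl
    rw [hv]
    show ‖(2 / 5 * ‖T l‖⁻¹) • T l‖ = 2 / 5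
    rw [norm_smul, Real.norm_eq_abs, abs_of_nonneg (by positivity)]
    field_simp
  have hvc : ContinuousOn v (Set.Icc 0 1) := by
    rw [hv]
    refine ContinuousOn.smul (ContinuousOn.mul continuousOn_const ?_) hTc.continuousOn
    exact ContinuousOn.inv₀ hTc.norm.continuousOn fun l hl => (hTpos l hl).ne'
  -- the weighted inequality
  have key : ∀ l ∈ Set.Icc (0:ℝ) 1,
      4 < (1 - l) * ((27/25 + a)^2 + ‖τ₁ + v l‖^2) + l * ((27/25 + b)^2 + ‖τ₂ + v l‖^2) := by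
    rintro l hl
    have h3 := pair_num a b l (‖τ₁‖^2) (‖τ₂‖^2) (‖τ₁ - τ₂‖^2) ‖T l‖ ha hb h1 h2 hl.1 hl.2 hd hA hB
      (norm_nonneg _) (hTn l)
    have h4 : (1 - l) * inner ℝ τ₁ (v l) + l * inner ℝ τ₂ (v l) = 2 / 5 * ‖T l‖ := by
      have h5 : inner ℝ (T l) (v l) = (1 - l) * inner ℝ τ₁ (v l) + l * inner ℝ τ₂ (v l) := by
        conv_lhs => rw [hT]
        rw [inner_add_left, inner_smul_left, inner_smul_left]
        simp only [conj_trivial]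
      rw [← h5, hv]
      show inner ℝ (T l) ((2 / 5 * ‖T l‖⁻¹) • T l) = 2 / 5 * ‖T l‖
      rw [inner_smul_right, real_inner_self_eq_norm_sq]
      have := hTpos l hl
      field_simp
    rw [norm_add_sq_real, norm_add_sq_real, hvn l hl]
    nlinarith
  obtain ⟨f, hf⟩ : ∃ f : ℝ → ℝ, f = fun l => (27/25 + b)^2 + ‖τ₂ + v l‖^2 := ⟨_, rfl⟩
  have hfc : ContinuousOn f (Set.Icc 0 1) := by
    rw [hf]
    exact continuousOn_const.add ((continuousOn_const.add hvc).norm.pow 2)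
  have k0 := key 0 (by simp)
  have k1 := key 1 (by simp)
  rcases le_or_gt 4 (f 0) with h0 | h0
  · refine ⟨v 0, (hvn 0 (by simp)).le, ?_, ?_⟩
    · linarith
    · rw [hf] at h0; exact h0
  · have hf1 : 4 < f 1 := by
      rw [hf]
      show 4 < (27/25 + b)^2 + ‖τ₂ + v 1‖^2
      linarith
    obtain ⟨l, hl, hl4⟩ := intermediate_value_Icc (zero_le_one) hfc
      (⟨h0.le, hf1.le⟩ : (4:ℝ) ∈ Set.Icc (f 0) (f 1))
    have k := key l hl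
    have e : (27/25 + b)^2 + ‖τ₂ + v l‖^2 = 4 := by
      rw [hf] at hl4; exact hl4
    refine ⟨v l, (hvn l hl).le, ?_, e.ge⟩
    rw [e] at k
    obtain ⟨A, hA'⟩ : ∃ A, A = (27/25 + a)^2 + ‖τ₁ + v l‖^2 := ⟨_, rfl⟩
    rw [← hA'] at k ⊢
    by_contra hcon
    push Not at hcon
    have h3 : 0 ≤ 1 - l := by linarith [hl.2]
    have h4 := mul_nonneg h3 (sub_nonneg.2 hcon.le)
    nlinarith
end

end Pool.Agent.PCH
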