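import Mathlib

/-!
# The sixty degree position and the ordinary indices
-/

set_option autoImplicit false

namespace Pool.Agent.PCH

/-- If `(Q, w)` has length `2/√3` and `(Q + a, w + x)` has length `2`, where `(a, x)` has length at
least `2/√3`, then `(Q, w)` is at an angle of at least sixty degrees from `(a, T)`. -/
theorem sixty_pos {a x Q w T s : ℝ} (ha : 0 ≤ a) (ha' : a ≤ 3 / 5) (hx : 0 < x)
    (hX : 4 / 3 ≤ a ^ 2 + x ^ 2) (hQ : 0 ≤ Q) (hw : 0 ≤ w) (hQw : Q ^ 2 + w ^ 2 = 4 / 3)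
    (h4 : (Q + a) ^ 2 + (w + x) ^ 2 = 4) (hT : 0 < T) (hT2 : T ^ 2 = 4 / 3 - a ^ 2)
    (hs : 0 < s) (hs2 : s ^ 2 = 3) :
    w ≤ (T - s * a) / 2 ∧ (a + s * T) / 2 ≤ Q ∧ 1 ≤ Q := by
  have hTx : T ≤ x := by
    refine le_of_sq_le_sq ?_ hx.le
    rw [hT2]; linarith
  have h4' : 2 * (Q * a + w * x) = 8 / 3 - (a ^ 2 + x ^ 2) := by
    have e : (Q + a) ^ 2 + (w + x) ^ 2 = (Q ^ 2 + w ^ 2) + (a ^ 2 + x ^ 2) +
      2 * (Q * a + w * x) := by ring
    rw [e, hQw] at h4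
    linarith
  obtain ⟨d, hdd⟩ : ∃ d, d = Q * a + w * T := ⟨_, rfl⟩
  obtain ⟨E, hE⟩ : ∃ E, E = Q * T - w * a := ⟨_, rfl⟩
  have hd : d ≤ 2 / 3 := by
    have h5 : w * T ≤ w * x := mul_le_mul_of_nonneg_left hTx hw
    rw [hdd]
    linarith
  have hd0 : 0 ≤ d := by rw [hdd]; positivity
  have hde : d ^ 2 + E ^ 2 = 16 / 9 := by
    have : d ^ 2 + E ^ 2 = (Q ^ 2 + w ^ 2) * (a ^ 2 + T ^ 2) := by rw [hdd, hE]; ring
    rw [this, hQw, hT2]; ring
  have hdsq : d ^ 2 ≤ 4 / 9 := by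
    have := mul_le_mul hd hd hd0 (by norm_num : (0:ℝ) ≤ 2 / 3)
    rw [← sq] at this
    linarith
  have hw1 : w ≤ 6 / 5 := by
    refine le_of_sq_le_sq ?_ (by norm_num)
    have := sq_nonneg Q
    norm_num
    linarith
  have he0 : -(18 / 25) ≤ E := by
    have h5 : w * a ≤ 6 / 5 * (3 / 5) := mul_le_mul hw1 ha' ha (by norm_num)
    have h6 : 0 ≤ Q * T := mul_nonneg hQ hT.le
    rw [hE]
    linarith
  have hs1 : s ≤ 2 := by
    refine le_of_sq_le_sq ?_ (by norm_num)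
    rw [hs2]; norm_num
  have he : 2 ≤ s * E := by
    by_contra hcon
    push Not at hcon
    have h6 : -(36 / 25) ≤ s * E := by
      have h7 : s * (E + 18 / 25) ≥ 0 := mul_nonneg hs.le (by linarith)
      have h8 : s * (E + 18 / 25) = s * E + 18 / 25 * s := by ring
      linarith
    have h9 : 0 < (2 - s * E) * (2 + s * E) := mul_pos (by linarith) (by linarith)
    have h10 : (2 - s * E) * (2 + s * E) = 4 - s ^ 2 * E ^ 2 := by ring
    rw [h10, hs2] at h9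
    linarith
  obtain ⟨W, hW⟩ : ∃ W, W = (T - s * a) / 2 := ⟨_, rfl⟩
  obtain ⟨R, hR⟩ : ∃ R, R = (a + s * T) / 2 := ⟨_, rfl⟩
  have hwW : w ≤ W := by
    have e1 : 4 / 3 * w = d * T - E * a := by
      have : d * T - E * a = w * (T ^ 2 + a ^ 2) := by rw [hdd, hE]; ring
      rw [this, hT2]; ring
    have e2 : s * (4 / 3 * w) ≤ s * (4 / 3 * W) := by
      have h5 : s * (4 / 3 * w) = s * T * d - s * E * a := by rw [e1]; ring
      have h6 : s * (4 / 3 * W) = s * T * (2 / 3) - 2 * a := by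
        have : s * (4 / 3 * W) = s * T * (2 / 3) - s ^ 2 * a * (2 / 3) := by rw [hW]; ring
        rw [this, hs2]; ring
      have h7 : s * T * d ≤ s * T * (2 / 3) := mul_le_mul_of_nonneg_left hd (by positivity)
      have h8 : 2 * a ≤ s * E * a := mul_le_mul_of_nonneg_right he ha
      linarith
    have := le_of_mul_le_mul_left e2 hs
    linarith
  have hRW : R ^ 2 + W ^ 2 = 4 / 3 := by
    have : R ^ 2 + W ^ 2 = (1 + s ^ 2) * (a ^ 2 + T ^ 2) / 4 := by rw [hR, hW]; ring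
    rw [this, hs2, hT2]; ring
  have hww : w ^ 2 ≤ W ^ 2 := by
    have := mul_le_mul hwW hwW hw (hw.trans hwW)
    rw [← sq, ← sq] at this
    exact this
  have hQR : R ≤ Q := by
    refine le_of_sq_le_sq ?_ hQ
    linarith
  have hW2 : W ^ 2 ≤ 1 / 3 := by
    have h0W : 0 ≤ W := hw.trans hwW
    have h1 : W ≤ T / 2 := by
      rw [hW]
      have : 0 ≤ s * a := by positivity
      linarith
    have h2 := mul_le_mul h1 h1 h0W (by positivity)
    have h3 : T / 2 * (T / 2) = T ^ 2 / 4 := by ring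
    rw [← sq, h3, hT2] at h2
    have := sq_nonneg a
    linarith
  refine ⟨hW ▸ hwW, hR ▸ hQR, ?_⟩
  refine le_of_sq_le_sq ?_ hQ
  linarith

/-- Ordinary indices: `b = P_j`, `y = ‖τ_j‖`, and `‖τ_j + v‖ ≥ |y - w|`. -/
theorem rot_ok {a b x y Q w : ℝ} (ha : 0 ≤ a) (ha' : a ≤ 3 / 5) (hb : 0 ≤ b) (hx : 0 < x)
    (hy : 0 ≤ y) (hX : 4 / 3 ≤ a ^ 2 + x ^ 2) (hY : 4 / 3 ≤ b ^ 2 + y ^ 2) (hQ : 0 ≤ Q)
    (hw : 0 ≤ w) (hQw : Q ^ 2 + w ^ 2 = 4 / 3) (h4 : (Q + a) ^ 2 + (w + x) ^ 2 = 4)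
    (h60 : 1 ≤ a ^ 2 + a * b + b ^ 2) : 4 ≤ (Q + b) ^ 2 + (y - w) ^ 2 := by
  have haa : a ^ 2 ≤ 9 / 25 := by
    have := mul_le_mul ha' ha' ha (by norm_num : (0:ℝ) ≤ 3 / 5)
    rw [← sq] at this
    linarith
  obtain ⟨T, hT, hT2⟩ : ∃ T : ℝ, 0 < T ∧ T ^ 2 = 4 / 3 - a ^ 2 :=
    ⟨Real.sqrt (4 / 3 - a ^ 2), Real.sqrt_pos.2 (by linarith), Real.sq_sqrt (by linarith)⟩
  obtain ⟨s, hs, hs2⟩ : ∃ s : ℝ, 0 < s ∧ s ^ 2 = 3 :=
    ⟨Real.sqrt 3, Real.sqrt_pos.2 (by norm_num), Real.sq_sqrt (by norm_num)⟩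
  obtain ⟨hwW, hRQ, hQ1⟩ := sixty_pos ha ha' hx hX hQ hw hQw h4 hT hT2 hs hs2
  rcases le_or_gt Q b with hbQ | hbQ
  · have h1 : (2 : ℝ) ≤ Q + b := by linarith
    have h2 := mul_le_mul h1 h1 (by norm_num) (by linarith)
    have h3 := sq_nonneg (y - w)
    nlinarith
  · have hbb : b ^ 2 < Q ^ 2 := by
      have := mul_lt_mul'' hbQ hbQ hb hb
      rw [← sq, ← sq] at this
      exact this
    obtain ⟨U, hU, hU2⟩ : ∃ U : ℝ, 0 ≤ U ∧ U ^ 2 = 4 / 3 - b ^ 2 := by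
      have := sq_nonneg w
      exact ⟨Real.sqrt (4 / 3 - b ^ 2), Real.sqrt_nonneg _, Real.sq_sqrt (by linarith)⟩
    have hwU : w ≤ U := by
      refine le_of_sq_le_sq ?_ hU
      linarith
    have hUy : U ≤ y := by
      refine le_of_sq_le_sq ?_ hy
      linarith
    have h1 : (U - w) ^ 2 ≤ (y - w) ^ 2 := by
      have h2 : 0 ≤ U - w := by linarith
      have h3 : U - w ≤ y - w := by linarith
      have := mul_le_mul h3 h3 h2 (by linarith)
      rw [← sq, ← sq] at this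
      exact this
    -- `C = cos`, `S = sin` of the sum of the two angles
    obtain ⟨C, hC⟩ : ∃ C, C = a * b - T * U := ⟨_, rfl⟩
    obtain ⟨S, hS⟩ : ∃ S, S = T * b + a * U := ⟨_, rfl⟩
    have hCS : C ^ 2 + S ^ 2 = 16 / 9 := by
      have : C ^ 2 + S ^ 2 = (a ^ 2 + T ^ 2) * (b ^ 2 + U ^ 2) := by rw [hC, hS]; ring
      rw [this, hT2, hU2]; ring
    have hS0 : 0 ≤ S := by rw [hS]; positivity
    have hC1 : -(2 / 3) ≤ C := by
      have h5 : T * U ≤ a * b + 2 / 3 := by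
        refine le_of_sq_le_sq ?_ (by positivity)
        rw [mul_pow, hT2, hU2]
        have e : (a * b + 2 / 3) ^ 2 - (4 / 3 - a ^ 2) * (4 / 3 - b ^ 2) =
            4 / 3 * (a ^ 2 + a * b + b ^ 2 - 1) := by ring
        linarith
      rw [hC]
      linarith
    have hC2 : C ≤ 4 / 3 := by
      refine le_of_sq_le_sq ?_ (by norm_num)
      have := sq_nonneg S
      norm_num
      linarith
    have hkey : 4 / 3 ≤ C + s * S := by
      have h6 : 4 / 3 - C ≤ s * S := by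
        refine le_of_sq_le_sq ?_ (by positivity)
        rw [mul_pow, hs2]
        have e : 3 * S ^ 2 - (4 / 3 - C) ^ 2 = (4 / 3 - C) * (8 / 3 + 4 * C) := by
          have : S ^ 2 = 16 / 9 - C ^ 2 := by linarith
          rw [this]; ring
        have := mul_nonneg (sub_nonneg.2 hC2) (by linarith : 0 ≤ 8 / 3 + 4 * C)
        linarith
      linarith
    have h7 : 2 / 3 ≤ Q * b - w * U := by
      have h8 : (a + s * T) / 2 * b ≤ Q * b := mul_le_mul_of_nonneg_right hRQ hb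
      have h9 : w * U ≤ (T - s * a) / 2 * U := mul_le_mul_of_nonneg_right hwW hU
      have e : (a + s * T) / 2 * b - (T - s * a) / 2 * U = (C + s * S) / 2 := by
        rw [hC, hS]; ring
      linarith
    have h10 : (Q + b) ^ 2 + (U - w) ^ 2 = (Q ^ 2 + w ^ 2) + (b ^ 2 + U ^ 2) +
        2 * (Q * b - w * U) := by ring
    have h11 : b ^ 2 + U ^ 2 = 4 / 3 := by rw [hU2]; ring
    rw [hQw, h11] at h10
    linarith

end Pool.Agent.PCH
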